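import Pool.Agent.Run7.h700.KC.Stm

/-!
Project KC, piece CH: chain of disks.
-/

set_option autoImplicit false

namespace Pool.Agent.Run7.h459.KC

open Metric Set
open Pool.Agent.Run7.h700.KC

theorem t_CH : S_CH := by
  intro hSP φ U K R hR hK hball hφ hφ1 N
  induction N with
  | zero =>
    intro a ha z hz hd
    have h0 : dist z a ≤ 0 := by simpa using hd
    have hza : z = a := dist_le_zero.mp h0
    subst hza
    simp
  | succ N ih =>
    intro a ha z hz hd
    have hN : (0 : ℝ) < (N : ℝ) + 1 := by positivity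
    have hd' : dist z a ≤ ((N : ℝ) + 1) * (R / 4) := by
      have h := hd
      push_cast at h
      exact h
    set lam : ℝ := (N : ℝ) / ((N : ℝ) + 1) with hlam
    have hl0 : 0 ≤ lam := by positivity
    have hl1 : 1 - lam = 1 / ((N : ℝ) + 1) := by
      rw [hlam]
      field_simp
      ring
    have hl1' : 0 ≤ 1 - lam := by rw [hl1]; positivity
    set b : ℂ := (1 - lam) • a + lam • z with hb
    have hbK : b ∈ K := hK ha hz hl1' hl0 (by ring)
    have hba : dist b a ≤ N * (R / 4) := by
      have h1 : b - a = lam • (z - a) := by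
        rw [hb]
        simp only [Complex.real_smul]
        push_cast
        ring
      rw [dist_eq_norm, h1, norm_smul, Real.norm_of_nonneg hl0, ← dist_eq_norm]
      calc lam * dist z a ≤ lam * (((N : ℝ) + 1) * (R / 4)) :=
            mul_le_mul_of_nonneg_left hd' hl0
        _ = N * (R / 4) := by
            rw [hlam]
            field_simp
    have hzb : dist z b ≤ R / 4 := by
      have h1 : z - b = (1 - lam) • (z - a) := by
        rw [hb]
        simp only [Complex.real_smul]
        push_cast
        ring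
      rw [dist_eq_norm, h1, norm_smul, Real.norm_of_nonneg hl1', ← dist_eq_norm]
      calc (1 - lam) * dist z a ≤ (1 - lam) * (((N : ℝ) + 1) * (R / 4)) :=
            mul_le_mul_of_nonneg_left hd' hl1'
        _ = R / 4 := by
            rw [hl1]
            field_simp
    obtain ⟨ih1, ih2⟩ := ih a ha b hbK hba
    have hsp : ‖φ z - φ b‖ ≤ 2 / 3 * (1 - ‖φ b‖) :=
      hSP φ b z R hR (hφ.mono (hball b hbK)) (fun w hw => hφ1 w (hball b hbK hw)) hzb
    have h1 : ‖φ z‖ ≤ ‖φ b‖ + ‖φ z - φ b‖ := by
      have := norm_add_le (φ b) (φ z - φ b)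
      rwa [add_sub_cancel] at this
    have h2 : ‖φ a‖ ≤ ‖φ b‖ + ‖φ b - φ a‖ := by
      have := norm_sub_le (φ b) (φ b - φ a)
      rwa [sub_sub_cancel] at this
    have h3 : ‖φ z - φ a‖ ≤ ‖φ z - φ b‖ + ‖φ b - φ a‖ := norm_sub_le_norm_sub_add_norm_sub _ _ _
    constructor
    · rw [pow_succ]
      nlinarith
    · have h5 : 1 - ‖φ b‖ ≤ (5 / 3) ^ N * (1 - ‖φ a‖) := by linarith
      rw [pow_succ]
      linarith

end Pool.Agent.Run7.h459.KC
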